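import Pool.Agent.TH432.RP.Main

/-!
# The sharp systolic inequality for `O(k) × O(m)`-invariant metrics on real projective spaces

Let `k, m ≥ 2`, `n = k + m - 1`.  The lift to `S^n ⊂ ℝ^k × ℝ^m` of an `O(k) × O(m)`-invariant smooth
Riemannian metric of `RP^n` is `g = dr² + f(r)² g_{S^{k-1}} + h(r)² g_{S^{m-1}}`, `0 ≤ r ≤ L`
(`IsProfile2 L f h`).  Its volume on `RP^n` is `c ∫₀^L f^{k-1} h^{m-1} dr` and that of the standard metric
(`L = π/2`, `f = sin`, `h = cos`) is `c ∫₀^{π/2} sin^{k-1} cos^{m-1} dt`, with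
`c = vol(S^{k-1}) vol(S^{m-1}) / 2`.  If `s` is the infimum of the lengths of the non-contractible loops then
`s^n vol(RP^n, g₀) ≤ π^n vol(RP^n, g)`; in particular `s ≤ π` if the volumes are the same.
-/

open Real Set MeasureTheory

namespace Pool.Agent.Results.MP_02f065_gt.BirotationalProjective

open Pool.Agent.TH432.RP
open Pool.Agent.H206R2.Rot2 (IsProfile2)

theorem result :
    ∀ (k m : ℕ) (L : ℝ) (f h : ℝ → ℝ), 2 ≤ k → 2 ≤ m → IsProfile2 L f h →
      systole k m L f h ^ (k + m - 1) * ENNReal.ofReal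
          (∫ t in (0 : ℝ)..π / 2, Real.sin t ^ (k - 1) * Real.cos t ^ (m - 1)) ≤
        ENNReal.ofReal (π ^ (k + m - 1) * ∫ r in (0 : ℝ)..L, f r ^ (k - 1) * h r ^ (m - 1)) ∧
      ((∫ r in (0 : ℝ)..L, f r ^ (k - 1) * h r ^ (m - 1)) =
          (∫ t in (0 : ℝ)..π / 2, Real.sin t ^ (k - 1) * Real.cos t ^ (m - 1)) →
        systole k m L f h ≤ ENNReal.ofReal π) :=
  fun _ _ _ _ _ hk hm hf => ⟨main hk hm hf, le_pi hk hm hf⟩

end Pool.Agent.Results.MP_02f065_gt.BirotationalProjective
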